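import Mathlib
import Pool.Agent.H5.Delta

open Set Filter Topology MeasureTheory

namespace Pool.Agent.Results.MP_840fa9_an.Yes

open Pool.Agent.H5.Delta

universe u

variable {X : Type u} [NormedAddCommGroup X] [NormedSpace ℂ X]

/-- `J` is `[α,∞)`, `(α,∞)` or `ℝ`. -/
def Admissible (J : Set ℝ) : Prop := (∃ α, J = Ici α) ∨ (∃ α, J = Ioi α) ∨ J = univ

/-- `g(t) = e^{i t²}` -/
noncomputable def g (t : ℝ) : ℂ := Complex.exp (Complex.I * ((t ^ 2 : ℝ) : ℂ))

/-- membership in `UC + g UC` (only the values on `J` matter) -/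
def InA (J : Set ℝ) (φ : ℝ → X) : Prop :=
  ∃ u v : ℝ → X, UniformContinuousOn u J ∧ UniformContinuousOn v J ∧
    ∀ t ∈ J, φ t = u t + g t • v t

/-- Bochner integrable on every compact subinterval of `J` -/
def L1loc (J : Set ℝ) (f : ℝ → X) : Prop :=
  ∀ a b, Icc a b ⊆ J → IntegrableOn f (Icc a b)

/-- the difference `Δ_a f` -/
def diff (a : ℝ) (f : ℝ → X) : ℝ → X := fun t => f (t + a) - f t

/-- the mean `M_h f` -/
noncomputable def mean (h : ℝ) (f : ℝ → X) : ℝ → X := fun t => h⁻¹ • ∫ s in t..(t + h), f s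

noncomputable def ex (x : ℝ) : ℂ := Complex.exp (Complex.I * (x : ℂ))

theorem ex_add (x y : ℝ) : ex (x + y) = ex x * ex y := by
  simp only [ex, ← Complex.exp_add]; congr 1; push_cast; ring

theorem norm_ex (x : ℝ) : ‖ex x‖ = 1 := by
  simp only [ex]; rw [mul_comm]; exact Complex.norm_exp_ofReal_mul_I x

theorem g_eq (t : ℝ) : g t = ex (t ^ 2) := rfl

theorem norm_g (t : ℝ) : ‖g t‖ = 1 := norm_ex _

theorem g_ne (t : ℝ) : g t ≠ 0 := Complex.exp_ne_zero _

theorem cont_g : Continuous g := by unfold g; fun_prop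

theorem ex_int (k : ℤ) : ex (0 + k * (2 * Real.pi)) = 1 := by
  simp only [ex]
  rw [← Complex.exp_int_mul_two_pi_mul_I k]
  congr 1; push_cast; ring

theorem ex_pi : ex Real.pi = -1 := by
  simp only [ex]; rw [mul_comm]; exact Complex.exp_pi_mul_I

theorem bdd_of_translate {J : Set ℝ} (hJ : Up J) (hB : Back J) {φ u v : ℝ → X}
    (hu : UniformContinuousOn u J) (hv : UniformContinuousOn v J)
    (e : ∀ t ∈ J, φ t = u t + g t • v t) (h1 : InA J (fun t => φ (t + 1))) : Bdd J v := by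
  obtain ⟨u', v', hu', hv', e'⟩ := h1
  let W : ℝ → X := fun t => u' t + v' t - u (t + 1)
  have hW : UniformContinuousOn W J := uc_sub (uc_add hu' hv') (uc_shift hJ hu zero_le_one)
  obtain ⟨δ₁, hδ₁, H₁⟩ := uc_eps hW one_pos
  obtain ⟨δ₂, hδ₂, H₂⟩ := uc_eps hv one_pos
  obtain ⟨δ, hδ, d1, d2, d3⟩ : ∃ δ > 0, 3 * δ ≤ δ₁ ∧ 3 * δ ≤ δ₂ ∧ 3 * δ ≤ 1 :=
    ⟨min δ₁ (min δ₂ 1) / 3, by positivity, by linarith [min_le_left δ₁ (min δ₂ 1)],
      by linarith [min_le_right δ₁ (min δ₂ 1), min_le_left δ₂ 1],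
      by linarith [min_le_right δ₁ (min δ₂ 1), min_le_right δ₂ 1]⟩
  obtain ⟨R, hR⟩ := exists_sq_phase hδ
  have hpi : (1 : ℝ) ≤ Real.pi / 2 := by linarith [Real.pi_gt_three]
  have hsin : 0 < Real.sin δ := Real.sin_pos_of_pos_of_lt_pi hδ (by linarith [Real.pi_gt_three])
  have key : ∀ s ∈ J, ∀ k : ℤ, s ^ 2 = 0 + k * (2 * Real.pi) →
      ex (2 * s + 1) • v (s + 1) = W s := by
    intro s hs k hk
    have i1 := e (s + 1) (hJ s hs 1 zero_le_one)
    have i2 := e' s hs
    simp only at i2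
    rw [i2, g_eq, g_eq, show (s + 1) ^ 2 = s ^ 2 + (2 * s + 1) by ring, ex_add, hk, ex_int,
      one_mul, one_smul] at i1
    simp only [W]
    rw [i1]; abel
  have far : ∀ t ∈ J, R + 1 ≤ |t| → ‖v (t + 1)‖ ≤ 1 / Real.sin δ + 1 := by
    intro t ht hRt
    obtain ⟨s₁, hs₁, k₁, e₁⟩ := hR t (by linarith) 0
    obtain ⟨s₂, hs₂, k₂, e₂⟩ := hR (t + 2 * δ) (by
      cases abs_cases t <;> cases abs_cases (t + 2 * δ) <;> linarith) 0
    have j₁ : s₁ ∈ J := by simpa using hJ t ht (s₁ - t) (by linarith [hs₁.1])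
    have j₂ : s₂ ∈ J := by simpa using hJ t ht (s₂ - t) (by linarith [hs₂.1])
    have f₁ := key s₁ j₁ k₁ e₁
    have f₂ := key s₂ j₂ k₂ e₂
    have l1 : δ ≤ s₂ - s₁ := by linarith [hs₁.2, hs₂.1]
    have l2 : s₂ - s₁ ≤ 3 * δ := by linarith [hs₁.1, hs₂.2]
    have a1 := H₁ s₂ j₂ s₁ j₁ (by rw [abs_of_nonneg (by linarith)]; linarith)
    have a2 := H₂ _ (hJ s₂ j₂ 1 zero_le_one) _ (hJ s₁ j₁ 1 zero_le_one) (by
      rw [abs_of_nonneg (by linarith)]; linarith)
    have a3 := H₂ _ (hJ t ht 1 zero_le_one) _ (hJ s₁ j₁ 1 zero_le_one) (by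
      rw [abs_le]; constructor <;> linarith [hs₁.1, hs₁.2])
    have b1 : (ex (2 * s₂ + 1) - ex (2 * s₁ + 1)) • v (s₁ + 1) =
        (W s₂ - W s₁) - ex (2 * s₂ + 1) • (v (s₂ + 1) - v (s₁ + 1)) := by
      rw [← f₁, ← f₂, sub_smul, smul_sub]; abel
    have b2 : ‖ex (2 * s₂ + 1) - ex (2 * s₁ + 1)‖ = 2 * Real.sin (s₂ - s₁) := by
      rw [show 2 * s₂ + 1 = (2 * s₁ + 1) + 2 * (s₂ - s₁) by ring, ex_add, ← mul_sub_one,
        norm_mul, norm_ex, one_mul, ex, Complex.norm_exp_I_mul_ofReal_sub_one,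
        show 2 * (s₂ - s₁) / 2 = s₂ - s₁ by ring, Real.norm_eq_abs, abs_of_nonneg]
      have := Real.sin_nonneg_of_nonneg_of_le_pi (x := s₂ - s₁) (by linarith)
        (by linarith [Real.pi_gt_three])
      linarith
    have b3 : Real.sin δ ≤ Real.sin (s₂ - s₁) :=
      Real.sin_le_sin_of_le_of_le_pi_div_two (by linarith) (by linarith) l1
    have b4 : 2 * Real.sin (s₂ - s₁) * ‖v (s₁ + 1)‖ ≤ 2 := by
      rw [← b2, ← norm_smul, b1]
      refine (norm_sub_le _ _).trans ?_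
      rw [norm_smul, norm_ex, one_mul]
      linarith
    have b5 : ‖v (s₁ + 1)‖ ≤ 1 / Real.sin δ := by
      rw [le_div_iff₀ hsin]
      nlinarith [norm_nonneg (v (s₁ + 1))]
    calc ‖v (t + 1)‖ = ‖(v (t + 1) - v (s₁ + 1)) + v (s₁ + 1)‖ := by congr 1; abel
      _ ≤ _ := (norm_add_le _ _).trans (by linarith)
  obtain ⟨R₂, hR₂⟩ := hB 1
  set R' := |max R₂ (R + 2)| with hR'
  have far' : ∀ t ∈ J, R' ≤ |t| → ‖v t‖ ≤ 1 / Real.sin δ + 1 := by
    intro t ht h
    have h' := (le_abs_self _).trans h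
    have := far (t - 1) (hR₂ t ht ((le_max_left _ _).trans h')) (by
      have := (le_max_right _ _).trans h'
      cases abs_cases t <;> cases abs_cases (t - 1) <;> linarith)
    simpa using this
  obtain ⟨C, hC⟩ := osc_of_uc hJ hv (2 * R')
  refine ⟨|C| + (1 / Real.sin δ + 1), fun t ht => ?_⟩
  by_cases h : R' ≤ |t|
  · linarith [far' t ht h, abs_nonneg C]
  · have h' := abs_lt.1 (not_le.1 h)
    have j : R' ∈ J := by simpa using hJ t ht (R' - t) (by linarith)
    have c1 := far' R' j (le_abs_self _)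
    have c2 := hC t ht R' j (by rw [abs_le]; constructor <;> linarith)
    calc ‖v t‖ = ‖(v t - v R') + v R'‖ := by congr 1; abel
      _ ≤ _ := (norm_add_le _ _).trans (by linarith [le_abs_self C])

noncomputable def η (t : ℝ) : ℝ := Real.pi / (2 * |t| + 1)

noncomputable def σ (t : ℝ) : ℝ := t + η t

theorem η_pos (t : ℝ) : 0 < η t := div_pos Real.pi_pos (by positivity)

theorem η_le (t : ℝ) : η t ≤ 4 := by
  unfold η
  rw [div_le_iff₀ (by positivity)]
  nlinarith [Real.pi_le_four, abs_nonneg t]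

theorem σ_lip (s t : ℝ) : |σ s - σ t| ≤ 9 * |s - t| := by
  have h1 : |η s - η t| ≤ 8 * |s - t| := by
    have e : η s - η t = 2 * Real.pi * (|t| - |s|) / ((2 * |s| + 1) * (2 * |t| + 1)) := by
      unfold η; field_simp; ring
    have a1 : |(|t| - |s|)| ≤ |s - t| := by
      rw [abs_sub_comm s t]; exact abs_abs_sub_abs_le_abs_sub t s
    have a2 : 1 ≤ (2 * |s| + 1) * (2 * |t| + 1) := by
      nlinarith [abs_nonneg s, abs_nonneg t]
    rw [e, abs_div, abs_mul, abs_of_pos (by positivity : 0 < 2 * Real.pi),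
      abs_of_pos (by positivity : 0 < (2 * |s| + 1) * (2 * |t| + 1))]
    refine (div_le_self (by positivity) a2).trans ?_
    have := Real.pi_le_four
    gcongr
    linarith
  have e : σ s - σ t = (s - t) + (η s - η t) := by unfold σ; ring
  rw [e]
  exact (abs_add_le _ _).trans (by linarith)

theorem cont_σ : Continuous σ := by
  unfold σ η
  exact continuous_id.add (continuous_const.div (by fun_prop) fun t => by positivity)

theorem η_small {δ : ℝ} (hδ : 0 < δ) : ∃ R, ∀ t, R ≤ |t| → η t ≤ δ := by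
  refine ⟨Real.pi / δ, fun t ht => ?_⟩
  unfold η
  rw [div_le_iff₀ hδ] at ht
  rw [div_le_iff₀ (by positivity)]
  nlinarith [abs_nonneg t]

theorem g_add_g (t : ℝ) : ‖g t + g (σ t)‖ ≤ 5 * η t := by
  have hη : η t * (2 * |t| + 1) = Real.pi := by unfold η; field_simp
  have h1 := η_pos t
  have h2 := η_le t
  have key : ∀ y : ℝ, |y| ≤ 5 * η t → g (σ t) = -(g t * ex y) → ‖g t + g (σ t)‖ ≤ 5 * η t := by
    intro y hy he
    rw [he, show g t + -(g t * ex y) = -(g t * (ex y - 1)) by ring, norm_neg, norm_mul, norm_g,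
      one_mul]
    exact Real.norm_exp_I_mul_ofReal_sub_one_le.trans hy
  rcases le_total 0 t with h | h
  · rw [abs_of_nonneg h] at hη
    refine key (η t ^ 2 - η t) (by rw [abs_le]; constructor <;> nlinarith) ?_
    rw [g_eq, g_eq, show σ t ^ 2 = t ^ 2 + (η t ^ 2 - η t) + Real.pi by
      unfold σ; rw [← hη]; ring, ex_add, ex_add, ex_pi]
    ring
  · rw [abs_of_nonpos h] at hη
    refine key (η t ^ 2 + η t) (by rw [abs_le]; constructor <;> nlinarith) ?_
    have : g (σ t) * ex Real.pi = g t * ex (η t ^ 2 + η t) := by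
      rw [g_eq, g_eq, ← ex_add, ← ex_add]
      congr 1
      unfold σ; rw [← hη]; ring
    rw [← this, ex_pi]; ring

noncomputable def P (φ : ℝ → X) (t : ℝ) : X := (1 / 2 : ℂ) • (φ t + φ (σ t))

noncomputable def Q (φ : ℝ → X) (t : ℝ) : X := (g t)⁻¹ • (1 / 2 : ℂ) • (φ t - φ (σ t))

theorem PQ (φ : ℝ → X) (t : ℝ) : P φ t + g t • Q φ t = φ t := by
  simp only [P, Q]
  rw [smul_inv_smul₀ (g_ne t), ← smul_add, show φ t + φ (σ t) + (φ t - φ (σ t)) = (2 : ℂ) • φ t by
    rw [two_smul]; abel, smul_smul]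
  norm_num

theorem uc_const_smul {J : Set ℝ} {w : ℝ → X} (c : ℂ) (h : UniformContinuousOn w J) :
    UniformContinuousOn (fun t => c • w t) J :=
  (uniformContinuous_const_smul c).comp_uniformContinuousOn h

theorem uc_PQ {J : Set ℝ} (hJ : Up J) {φ u v : ℝ → X}
    (hu : UniformContinuousOn u J) (hv : UniformContinuousOn v J) (hb : Bdd J v)
    (e : ∀ t ∈ J, φ t = u t + g t • v t) :
    UniformContinuousOn (P φ) J ∧ UniformContinuousOn (Q φ) J := by
  have hσ : ∀ t ∈ J, σ t ∈ J := fun t ht => hJ t ht _ (η_pos t).le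
  obtain ⟨C, hC⟩ := hb
  let z : ℝ → X := fun t => (1 / 2 : ℂ) •
    ((u t - u (σ t)) - g t • (v t - v (σ t)) - (g t + g (σ t)) • v (σ t))
  have huσ := uc_comp (L := 9) (by norm_num) hu σ_lip hσ
  have hvσ := uc_comp (L := 9) (by norm_num) hv σ_lip hσ
  have hzn : ∀ t ∈ J, ‖z t‖ ≤ ‖u t - u (σ t)‖ + ‖v t - v (σ t)‖ + 5 * η t * |C| := by
    intro t ht
    have a1 : ‖(u t - u (σ t)) - g t • (v t - v (σ t)) - (g t + g (σ t)) • v (σ t)‖ ≤
        ‖u t - u (σ t)‖ + ‖v t - v (σ t)‖ + 5 * η t * |C| := by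
      refine (norm_sub_le _ _).trans (add_le_add ((norm_sub_le _ _).trans ?_) ?_)
      · rw [norm_smul, norm_g, one_mul]
      · rw [norm_smul]
        have := η_pos t
        gcongr
        · exact g_add_g t
        · exact (hC _ (hσ t ht)).trans (le_abs_self C)
    simp only [z]
    rw [norm_smul]
    have a2 : ‖(1 / 2 : ℂ)‖ ≤ 1 := by norm_num
    exact (mul_le_of_le_one_left (norm_nonneg _) a2).trans a1
  have habs : ∀ t, |t - σ t| = η t := fun t => by
    unfold σ; rw [show t - (t + η t) = -η t by ring, abs_neg, abs_of_pos (η_pos t)]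
  have hzl : LocUC J z := by
    intro R
    refine uc_const_smul _ (uc_sub (uc_sub (locUC_of_uc (uc_sub hu huσ) R)
      (locUC_smul cont_g (uc_sub hv hvσ) ⟨C + C, fun t ht =>
        (norm_sub_le _ _).trans (add_le_add (hC t ht) (hC _ (hσ t ht)))⟩ R))
      (locUC_smul (cont_g.add (cont_g.comp cont_σ)) hvσ ⟨C, fun t ht => hC _ (hσ t ht)⟩ R))
  have hzs : Small J z := by
    intro ε hε
    obtain ⟨δ₁, hδ₁, H₁⟩ := uc_eps hu (ε := ε / 3) (by positivity)
    obtain ⟨δ₂, hδ₂, H₂⟩ := uc_eps hv (ε := ε / 3) (by positivity)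
    obtain ⟨R, hR⟩ := η_small (δ := min δ₁ (min δ₂ (ε / (15 * (|C| + 1))))) (by positivity)
    refine ⟨R, fun t ht h => (hzn t ht).trans ?_⟩
    have a0 := hR t h
    have a1 := H₁ t ht _ (hσ t ht) (by rw [habs]; exact a0.trans (min_le_left _ _))
    have a2 := H₂ t ht _ (hσ t ht) (by
      rw [habs]; exact a0.trans ((min_le_right _ _).trans (min_le_left _ _)))
    have a3 : η t ≤ ε / (15 * (|C| + 1)) :=
      a0.trans ((min_le_right _ _).trans (min_le_right _ _))
    rw [le_div_iff₀ (by positivity)] at a3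
    nlinarith [η_pos t]
  have hzb : Bdd J z := by
    obtain ⟨A, hA⟩ := osc_of_uc hJ hu 4
    refine ⟨A + (C + C) + 5 * 4 * |C|, fun t ht => (hzn t ht).trans ?_⟩
    have a1 := hA t ht _ (hσ t ht) (by rw [habs]; exact η_le t)
    have a2 := (norm_sub_le _ _).trans (add_le_add (hC t ht) (hC _ (hσ t ht)))
    have a3 : 5 * η t * |C| ≤ 5 * 4 * |C| := by gcongr; exact η_le t
    linarith
  have hz := uc_of_small hzl hzs
  have hQ : ∀ t ∈ J, v t + (g t)⁻¹ • z t = Q φ t := by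
    intro t ht
    have i : (1 / 2 : ℂ) • (φ t - φ (σ t)) = g t • v t + z t := by
      simp only [z]
      rw [e t ht, e _ (hσ t ht)]
      module
    simp only [Q]
    rw [i, smul_add, inv_smul_smul₀ (g_ne t)]
  refine ⟨uc_congr (uc_sub hu hz) fun t ht => ?_,
    uc_congr (uc_add hv (uc_smul_small (g := fun t => (g t)⁻¹) (cont_g.inv₀ g_ne)
      (fun t => by rw [norm_inv, norm_g, inv_one]) hz hzb hzs)) hQ⟩
  have h1 := PQ φ t
  rw [← hQ t ht, smul_add, smul_inv_smul₀ (g_ne t), e t ht] at h1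
  rw [sub_eq_iff_eq_add]
  have h2 : u t + g t • v t = (P φ t + z t) + g t • v t := by rw [← h1]; abel
  exact add_right_cancel h2

theorem result (J : Set ℝ) (hJ : Admissible J) (X : Type u) [NormedAddCommGroup X]
    [NormedSpace ℂ X] [CompleteSpace X] (f : ℝ → X) (hf : L1loc J f)
    (hd : ∀ a > 0, InA J (diff a f)) : ∀ h > 0, InA J (fun t => f t - mean h f t) := by
  intro h hh
  obtain ⟨hU, hB⟩ := up_back hJ
  have hσ : ∀ t ∈ J, σ t ∈ J := fun t ht => hU t ht _ (η_pos t).le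
  have dec : ∀ b > 0, ∃ u v : ℝ → X, UniformContinuousOn u J ∧ UniformContinuousOn v J ∧
      Bdd J v ∧ ∀ t ∈ J, diff b f t = u t + g t • v t := by
    intro b hb
    obtain ⟨u, v, hu, hv, e⟩ := hd b hb
    refine ⟨u, v, hu, hv, bdd_of_translate hU hB hu hv e ?_, e⟩
    obtain ⟨u₁, v₁, hu₁, hv₁, e₁⟩ := hd (1 + b) (by positivity)
    obtain ⟨u₂, v₂, hu₂, hv₂, e₂⟩ := hd 1 one_pos
    refine ⟨_, _, uc_sub hu₁ hu₂, uc_sub hv₁ hv₂, fun t ht => ?_⟩
    have i1 := e₁ t ht
    have i2 := e₂ t ht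
    simp only [diff] at i1 i2 ⊢
    rw [smul_sub, add_assoc]
    calc f (t + (1 + b)) - f (t + 1) = (f (t + (1 + b)) - f t) - (f (t + 1) - f t) := by abel
      _ = _ := by rw [i1, i2]; abel
  obtain ⟨C, hC⟩ := unif_bound hU hf 1 9 (fun a ha => by
    obtain ⟨u, v, hu, hv, -, e⟩ := dec a ha
    exact (hu.continuousOn.add (cont_g.continuousOn.smul hv.continuousOn)).congr e)
    (fun a ha => by
      obtain ⟨u, v, hu, hv, ⟨B, hb⟩, e⟩ := dec a ha
      obtain ⟨A, hA⟩ := osc_of_uc hU hu 9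
      refine ⟨A + (B + B), fun s hs t ht hst => ?_⟩
      have i1 := e s hs
      have i2 := e t ht
      simp only [diff] at i1 i2
      rw [one_smul, i1, i2, show u s + g s • v s - (u t + g t • v t) =
        (u s - u t) + (g s • v s - g t • v t) by abel]
      refine (norm_add_le _ _).trans (add_le_add (hA s hs t ht hst)
        ((norm_sub_le _ _).trans ?_))
      rw [norm_smul, norm_smul, norm_g, norm_g, one_mul, one_mul]
      exact add_le_add (hb s hs) (hb t ht)) hh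
  have hC' : ∀ a ∈ Ioc 0 h, ∀ s ∈ J, ∀ t ∈ J, |s - t| ≤ 9 → ‖diff a f s - diff a f t‖ ≤ C :=
    fun a ha s hs t ht hst => by simpa [diff] using hC a ha s hs t ht hst
  have half : ∀ x : X, ‖(1 / 2 : ℂ) • x‖ ≤ ‖x‖ := fun x => by
    rw [norm_smul]
    exact mul_le_of_le_one_left (norm_nonneg _) (by norm_num)
  have iD : ∀ t ∈ J, IntegrableOn (fun a => diff a f t) (Ioc 0 h) := fun t ht =>
    integrableOn_shift hU hf ht hh
  have iP : ∀ t ∈ J, IntegrableOn (fun a => P (diff a f) t) (Ioc 0 h) := fun t ht =>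
    ((iD t ht).add (iD _ (hσ t ht))).smul (1 / 2 : ℂ)
  have iQ : ∀ t ∈ J, IntegrableOn (fun a => Q (diff a f) t) (Ioc 0 h) := fun t ht =>
    (((iD t ht).sub (iD _ (hσ t ht))).smul (1 / 2 : ℂ)).smul (g t)⁻¹
  have hPQ : ∀ a ∈ Ioc 0 h, UniformContinuousOn (P (diff a f)) J ∧
      UniformContinuousOn (Q (diff a f)) J := by
    intro a ha
    obtain ⟨u, v, hu, hv, hb, e⟩ := dec a ha.1
    exact uc_PQ hU hu hv hb e
  have h1 := uc_integral (Φ := fun a => P (diff a f)) (C := C + C) (fun a ha => (hPQ a ha).1) iP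
    (fun a ha s hs t ht hst => by
      simp only [P]
      rw [← smul_sub]
      refine (half _).trans ?_
      rw [show diff a f s + diff a f (σ s) - (diff a f t + diff a f (σ t)) =
        (diff a f s - diff a f t) + (diff a f (σ s) - diff a f (σ t)) by abel]
      exact (norm_add_le _ _).trans (add_le_add (hC' a ha s hs t ht (by linarith))
        (hC' a ha _ (hσ s hs) _ (hσ t ht) ((σ_lip s t).trans (by linarith)))))
  have hQb : ∀ a ∈ Ioc 0 h, ∀ t ∈ J, ‖Q (diff a f) t‖ ≤ C := by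
    intro a ha t ht
    simp only [Q]
    rw [norm_smul, norm_inv, norm_g, inv_one, one_mul]
    refine (half _).trans (hC' a ha t ht _ (hσ t ht) ?_)
    unfold σ
    rw [show t - (t + η t) = -η t by ring, abs_neg, abs_of_pos (η_pos t)]
    linarith [η_le t]
  have h2 := uc_integral (Φ := fun a => Q (diff a f)) (C := C + C) (fun a ha => (hPQ a ha).2) iQ
    (fun a ha s hs t ht _ => (norm_sub_le _ _).trans (add_le_add (hQb a ha s hs) (hQb a ha t ht)))
  refine ⟨_, _, (uniformContinuous_const_smul (-h⁻¹)).comp_uniformContinuousOn h1,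
    (uniformContinuous_const_smul (-h⁻¹)).comp_uniformContinuousOn h2, fun t ht => ?_⟩
  simp only [mean, Function.comp]
  have iQ' : IntegrableOn (fun a => g t • Q (diff a f) t) (Ioc 0 h) := (iQ t ht).smul (g t)
  rw [sub_mean hU hf ht hh, smul_comm (g t), ← smul_add, ← integral_smul (g t),
    ← integral_add (iP t ht) iQ']
  congr 2
  funext a
  exact (PQ (diff a f) t).symm

end Pool.Agent.Results.MP_840fa9_an.Yes
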